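import Pool.Agent.V11155.Unbounded
import Pool.Agent.V11155.Arrange

/-!
The unbounded values of `t` are exactly the integers `t ≥ 4`.
-/

namespace Pool.Agent.Results.MP_2bafa0_co.Classification

open Finset Pool.Agent.V11155.TradeGames Pool.Agent.V11155.Arrange Pool.Agent.V11155.Unbounded

/-- The number `t` is unbounded: for every `k ≥ 2` there is a complete simple game with exactly
`t` types of voters which is `k`-trade robust but not `(k+1)`-trade robust. -/
def Unbounded (t : ℕ) : Prop :=
  ∀ k ≥ 2, ∃ (N : Type) (_ : Fintype N) (_ : DecidableEq N) (G : SimpleGame N),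
    Complete G ∧ numTypes G = t ∧ TradeRobust G k ∧ ¬ TradeRobust G (k + 1)

/-- The number `t` is unbounded if and only if it is at least four. -/
theorem result : ∀ t : ℕ, Unbounded t ↔ 4 ≤ t := by
  intro t
  constructor
  · intro h
    by_contra hcon
    push Not at hcon
    obtain ⟨N, i1, i2, G, _, h2, h3, h4⟩ := h 3 (by norm_num)
    exact h4 (tradeRobust_of_weighted G (weighted_of_tr G (by omega) h3) 4)
  · intro ht k hk
    obtain ⟨⟨N, i1, i2, G, h1, _, h3, h4, h5⟩, _⟩ := both t ht k hk
    exact ⟨N, i1, i2, G, h1, h3, h4, h5⟩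

end Pool.Agent.Results.MP_2bafa0_co.Classification
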